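import Pool.Agent.Q32.Ov.Mod2

/-! Montgomery's conjecture for one modulus per `x` on sparse windows, and zeros of L-functions. -/

open Filter Finset

namespace Pool.Agent.Results.MP_848d44_nt.EveryMultiple

/-- `ψ(x, q, a)`. -/
noncomputable def psi (x : ℝ) (q a : ℕ) : ℝ :=
  ∑ n ∈ (Icc 1 ⌊x⌋₊).filter (fun n : ℕ => n ≡ a [MOD q]), ArithmeticFunction.vonMangoldt n

/-- First part: let `L(ρ, χ) = 0`, `ρ ≠ 1`, for a character `χ` modulo `q₀`, and `0 ≤ θ < Re ρ`, `0 < δ < 1`.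
Then every large `X` has an `x` in `[X^(1-δ), X]` such that, for ALL multiples `q ≤ X` of `q₀` at once,
`∑_{a mod q, (a,q)=1} |ψ(x,q,a) - x/φ(q)| > x^θ`.
Second part: let `τ ≥ 0` and suppose that for every `ε > 0`, on the windows `[X^(1-δ), X]` of arbitrarily large
`X` (`δ` may depend on `ε`), each `x` has at least ONE multiple `q ≤ x^(τ+ε)` of `q₀` with Montgomery's bound
`|ψ(x,q,a) - x/φ(q)| ≤ x^(1/2+ε)/√q` for all reduced `a`. Then `L(s, χ) ≠ 0` for `Re s > (1+τ)/2`, for all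
characters `χ` modulo `q₀`. -/
theorem result :
    (∀ (q₀ : ℕ) [NeZero q₀] (χ : DirichletCharacter ℂ q₀) (ρ : ℂ), ρ ≠ 1 → DirichletCharacter.LFunction χ ρ = 0 →
      ∀ θ δ : ℝ, 0 ≤ θ → θ < ρ.re → 0 < δ → δ < 1 → ∃ X₀ : ℝ, ∀ X : ℝ, X₀ ≤ X → ∃ x : ℝ, X ^ (1 - δ) ≤ x ∧ x ≤ X ∧
        ∀ q : ℕ, q₀ ∣ q → 1 ≤ q → (q : ℝ) ≤ X →
          x ^ θ < ∑ a ∈ (range q).filter (fun a => a.Coprime q), |psi x q a - x / q.totient|) ∧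
    (∀ (q₀ : ℕ) [NeZero q₀] (τ : ℝ), 0 ≤ τ →
      (∀ ε : ℝ, 0 < ε → ∃ δ : ℝ, 0 < δ ∧ δ < 1 ∧ ∀ X₀ : ℝ, ∃ X : ℝ, X₀ ≤ X ∧
        ∀ x : ℝ, X ^ (1 - δ) ≤ x → x ≤ X → ∃ q : ℕ, q₀ ∣ q ∧ 1 ≤ q ∧ (q : ℝ) ≤ x ^ (τ + ε) ∧
          ∀ a ∈ (range q).filter (fun a => a.Coprime q),
            |psi x q a - x / q.totient| ≤ x ^ (1 / 2 + ε) / Real.sqrt q) →
      ∀ (χ : DirichletCharacter ℂ q₀) (s : ℂ), (1 + τ) / 2 < s.re → (s ≠ 1 ∨ χ ≠ 1) →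
        DirichletCharacter.LFunction χ s ≠ 0) := by
  refine ⟨?_, ?_⟩
  · intro q₀ _ χ ρ hρ h0 θ δ hθ0 hθ hδ hδ1
    obtain ⟨X₀, hX₀⟩ := eventually_atTop.1 (Pool.Agent.Q32.Ov.mod_window χ hρ h0 hθ0 hθ hδ hδ1)
    refine ⟨X₀, fun X hX => ?_⟩
    obtain ⟨x, ⟨hx1, hx2⟩, hx3⟩ := hX₀ X hX
    exact ⟨x, hx1, hx2, hx3⟩
  · intro q₀ _ τ hτ h χ s hs hs1
    exact Pool.Agent.Q32.Ov.free_of_mont hτ h χ hs hs1

end Pool.Agent.Results.MP_848d44_nt.EveryMultiple
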