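import Pool.Agent.Q44.Appr
import Pool.Agent.H426AM.Final
import Pool.Agent.Y854.GM.Cum

/-! # Large error terms in the prime number theorem for the moduli given by continued fractions

The conjecture of the question gives a bound for the error terms `ψ(x, q, a) - x/φ(q)`.  For every `0 < δ < 1` there
is `η > 0` such that, for all irrational numbers `α` outside a set of Hausdorff dimension at most `1 - η / 2`, in
particular for almost every real number, and all integers `(u, v) ≠ (0, 0)`: for all but finitely many convergents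
`p / m` of the continued fraction of `α`, `q = |u p + v m|` has the property that for ALL real `x` with
`q ≤ x ≤ q ^ (2 - δ)` there is a reduced residue class `a` modulo `q` with
`|ψ(x, q, a) - x/φ(q)| ≥ √((δ/8) x log x / φ(q))`.  The same for the approximations of other qualities, for the
points of `ℝ ^ d`, and for the values of polynomials at the denominator and the numerators. -/

set_option autoImplicit false

namespace Pool.Agent.Results.MP_848d44_nt.GoodApproximations

open Finset MeasureTheory Filter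
open Pool.Agent.Q44.CF (AtApproximations at_of)

/-- `ψ(x, q, a)`: the sum of `Λ(n)` over the `n ≤ x` with `n ≡ a mod q`. -/
noncomputable def psi (x : ℝ) (q a : ℕ) : ℝ :=
  ∑ n ∈ (Icc 1 ⌊x⌋₊).filter (fun n => n ≡ a [MOD q]), ArithmeticFunction.vonMangoldt n

/-- `q ≥ 1`, and for ALL real `x` with `q ≤ x ≤ q ^ (2 - δ)` there is a class `a`, `0 ≤ a < q`, `(a, q) = 1`, with
`|ψ(x, q, a) - x/φ(q)| ≥ √((δ/8) x log x / φ(q))`. -/
def LargeErrors (δ : ℝ) (q : ℕ) : Prop :=
  1 ≤ q ∧ ∀ x : ℝ, (q : ℝ) ≤ x → x ≤ (q : ℝ) ^ (2 - δ) → ∃ a : ℕ, a < q ∧ a.Coprime q ∧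
    Real.sqrt (δ / 8 * x * Real.log x / Nat.totient q) ≤ |psi x q a - x / Nat.totient q|

open Classical in
/-- the moduli without this property -/
def Bad (δ : ℝ) : Set ℕ := {q : ℕ | ¬ LargeErrors δ q}

/-- large variance implies a large error -/
lemma large_of (δ : ℝ) (hδ : 0 < δ) (hδ1 : δ < 1) (q : ℕ) (hq : 1 ≤ q)
    (h : ∀ x : ℝ, (q : ℝ) ≤ x → x * (Real.log q - 1 / 2 * Real.log x - δ / 8 * Real.log x) ≤
      ∑ a ∈ (range q).filter (fun a => a.Coprime q), (psi x q a - x / Nat.totient q) ^ 2) : LargeErrors δ q := by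
  refine ⟨hq, fun x hx1 hx2 => ?_⟩
  have hq1 : (1 : ℝ) ≤ q := by exact_mod_cast hq
  have hx0 : 0 < x := by linarith
  have hφ : 0 < Nat.totient q := Nat.totient_pos.2 (by omega)
  have hφR : (0 : ℝ) < Nat.totient q := by exact_mod_cast hφ
  have hlx : Real.log x ≤ (2 - δ) * Real.log q := by
    have := Real.log_le_log hx0 hx2
    rwa [Real.log_rpow (by linarith)] at this
  have hlx0 : 0 ≤ Real.log x := Real.log_nonneg (by linarith)
  have hlq0 : 0 ≤ Real.log q := Real.log_nonneg hq1
  have h1 : δ / 8 * x * Real.log x ≤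
      ∑ a ∈ (range q).filter (fun a => a.Coprime q), (psi x q a - x / Nat.totient q) ^ 2 := by
    refine le_trans ?_ (h x hx1)
    have h2 : (1 / 2 + δ / 4) * Real.log x ≤ Real.log q := by
      calc (1 / 2 + δ / 4) * Real.log x ≤ (1 / 2 + δ / 4) * ((2 - δ) * Real.log q) := by gcongr
        _ = (1 - δ ^ 2 / 4) * Real.log q := by ring
        _ ≤ 1 * Real.log q := by
          apply mul_le_mul_of_nonneg_right _ hlq0
          nlinarith
        _ = _ := one_mul _
    nlinarith
  have hcard : (((range q).filter (fun a => a.Coprime q)).card : ℝ) = Nat.totient q := by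
    rw [Nat.totient_eq_card_coprime]
    congr 2
    apply filter_congr
    intro a _
    exact Nat.coprime_comm
  by_contra hcon
  push Not at hcon
  have hV0 : 0 ≤ δ / 8 * x * Real.log x / Nat.totient q := by positivity
  have hne : ((range q).filter (fun a => a.Coprime q)).Nonempty := by
    rw [← card_pos]
    have : (0 : ℝ) < (((range q).filter (fun a => a.Coprime q)).card : ℝ) := by rw [hcard]; exact hφR
    exact_mod_cast this
  have h3 : ∑ a ∈ (range q).filter (fun a => a.Coprime q), (psi x q a - x / Nat.totient q) ^ 2 <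
      ∑ a ∈ (range q).filter (fun a => a.Coprime q), δ / 8 * x * Real.log x / Nat.totient q := by
    apply sum_lt_sum_of_nonempty hne
    intro a ha
    rw [mem_filter, mem_range] at ha
    have h4 := hcon a ha.1 ha.2
    have h5 : |psi x q a - x / Nat.totient q| ^ 2 < Real.sqrt (δ / 8 * x * Real.log x / Nat.totient q) ^ 2 :=
      pow_lt_pow_left₀ h4 (abs_nonneg _) two_ne_zero
    rwa [sq_abs, Real.sq_sqrt hV0] at h5
  rw [sum_const, nsmul_eq_mul, hcard, mul_div_cancel₀ _ hφR.ne'] at h3
  linarith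

open Classical in
lemma count (δ : ℝ) (hδ : 0 < δ) (hδ1 : δ < 1) : ∃ η : ℝ, 0 < η ∧ η ≤ 1 ∧ ∃ C : ℝ, ∀ X : ℕ,
    (((Ioc 0 X).filter (fun q => q ∈ Bad δ)).card : ℝ) ≤ C * (X : ℝ) ^ (1 - η) := by
  obtain ⟨κ, K₀, hκ, hK⟩ := H426AM.main (δ / 8) (by positivity)
  obtain ⟨η, hη, C, hC⟩ := Pool.Agent.Y854.GM.cum_pow (Bad δ) hκ ⌈K₀⌉₊ (by
    intro K hK0
    refine le_trans ?_ (hK K (Nat.ceil_le.1 hK0))
    have hsub : (Ioc K (2 * K)).filter (fun q => q ∈ Bad δ) ⊆
        (Ioc K (2 * K)).filter (fun q : ℕ => ∃ x : ℝ, (q : ℝ) ≤ x ∧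
          ∑ a ∈ (range q).filter (fun a => a.Coprime q), (psi x q a - x / Nat.totient q) ^ 2 <
            x * (Real.log q - 1 / 2 * Real.log x - δ / 8 * Real.log x)) := by
      intro q hq
      rw [mem_filter] at hq ⊢
      refine ⟨hq.1, ?_⟩
      have hq1 := (mem_Ioc.1 hq.1).1
      by_contra hcon
      push Not at hcon
      exact hq.2 (large_of δ hδ hδ1 q (by omega) hcon)
    exact_mod_cast card_le_card hsub)
  refine ⟨min η 1, lt_min hη one_pos, min_le_right _ _, |C|, fun X => ?_⟩
  rcases Nat.eq_zero_or_pos X with rfl | hX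
  · simp only [Ioc_self, filter_empty, card_empty, Nat.cast_zero]
    positivity
  · refine (hC X).trans ?_
    have hXp : (1 : ℝ) ≤ X := by exact_mod_cast hX
    calc C * (X : ℝ) ^ (1 - η) ≤ |C| * (X : ℝ) ^ (1 - η) :=
          mul_le_mul_of_nonneg_right (le_abs_self C) (by positivity)
      _ ≤ |C| * (X : ℝ) ^ (1 - min η 1) := by
          apply mul_le_mul_of_nonneg_left _ (abs_nonneg _)
          exact Real.rpow_le_rpow_of_exponent_le hXp (by have := min_le_left η 1; linarith)

/-- **Theorem.** Let `0 < δ < 1`. There is `η > 0` such that, for all moduli `q` given by good rational approximations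
of real numbers and real points in the sense of `AtApproximations (1 - η)`, for ALL real `x` with
`q ≤ x ≤ q ^ (2 - δ)` there is a reduced residue class `a` modulo `q` with
`|ψ(x, q, a) - x/φ(q)| ≥ √((δ/8) x log x / φ(q))`. -/
theorem result (δ : ℝ) (hδ : 0 < δ) (hδ1 : δ < 1) :
    ∃ η : ℝ, 0 < η ∧ η ≤ 1 ∧ AtApproximations (1 - η) (LargeErrors δ) := by
  classical
  obtain ⟨η, hη, hη1, C, hC⟩ := count δ hδ hδ1
  refine ⟨η, hη, hη1, at_of (B := fun q => q ∈ Bad δ) (by linarith) ?_ (fun n h => h)⟩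
  intro t ht
  refine ⟨|C|, fun N hN => ?_⟩
  have hN1 : (1 : ℝ) ≤ N := by exact_mod_cast hN
  have hC0 : 0 ≤ |C| := abs_nonneg C
  refine le_trans (Nat.cast_le.2 (Pool.Agent.Q21.DW.card_mono (t := (Ioc 0 N)) ?_)) ((hC N).trans ?_)
  · intro m hm h5
    rw [mem_Icc] at hm
    exact ⟨mem_Ioc.2 ⟨by omega, hm.2⟩, h5⟩
  · calc C * (N : ℝ) ^ (1 - η) ≤ |C| * (N : ℝ) ^ (1 - η) :=
          mul_le_mul_of_nonneg_right (le_abs_self C) (by positivity)
      _ ≤ |C| * (N : ℝ) ^ t :=
          mul_le_mul_of_nonneg_left (Real.rpow_le_rpow_of_exponent_le hN1 ht.le) hC0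

end Pool.Agent.Results.MP_848d44_nt.GoodApproximations
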