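import Pool.Agent.Q319.DR.MultP
import Pool.Agent.Q319.DR.LacP
import Pool.Agent.H426AM.Final
import Pool.Agent.Y854.GM.Cum

/-!
# Large error terms in the prime number theorem for all moduli near the multiples of almost all real numbers

The conjecture says that the error `|ψ(x, q, a) - x/φ(q)|` is at most `C x ^ (1/2 + ε) / q ^ (1/2)`. We show that it is
at least `√((δ/8) x log x / φ(q))` for some class `a`, so larger than any bounded multiple of
`x ^ (1/2) / q ^ (1/2)`, for ALL real `x` with `q ≤ x ≤ q ^ (2 - δ)`, and for ALL moduli `q`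
* in the windows of radius `N ^ c` around the multiples `k y`, `k ≤ N ^ θ`, with at most `N ^ (θ - c)` exceptional `k`,
  for all real `y ∈ [N ^ (1 - θ), 2 N ^ (1 - θ)]` outside a set of measure at most `N ^ (1 - θ - c)`;
* in the windows of radius `(b k) ^ c` around the numbers `α b k`, `k` large, for almost all `α` and every sequence
  `b k ≥ k ^ (1 / c)`.

From Mathlib: `ArithmeticFunction.vonMangoldt`: the function `Λ`; `Nat.totient`: Euler's function `φ`; `volume`: the
Lebesgue measure; `∀ᵐ α : ℝ`: for almost all real `α`; `∀ᶠ k in atTop`: for all large `k`.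
The lower bound for the variance for almost all moduli is from the starting files (`H426AM.main`), as well as the count
of the elements of arbitrary sets of integers in intervals at multiples of real numbers (`Pool.Agent.H438R2.DL`).
-/

set_option autoImplicit false

namespace Pool.Agent.Results.MP_848d44_nt.LargeErrorsAtRealMultiples

open Finset MeasureTheory Filter

/-- `ψ(x, q, a)`: the sum of `Λ(n)` over the `n ≤ x` with `n ≡ a mod q`. -/
noncomputable def psi (x : ℝ) (q a : ℕ) : ℝ :=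
  ∑ n ∈ (Icc 1 ⌊x⌋₊).filter (fun n => n ≡ a [MOD q]), ArithmeticFunction.vonMangoldt n

/-- `q ≥ 1`, and for ALL real `x` with `q ≤ x ≤ q ^ (2 - δ)` there is a class `a`, `0 ≤ a < q`, `(a, q) = 1`, with
`|ψ(x, q, a) - x/φ(q)| ≥ √((δ/8) x log x / φ(q))`. -/
def LargeErrors (δ : ℝ) (q : ℕ) : Prop :=
  1 ≤ q ∧ ∀ x : ℝ, (q : ℝ) ≤ x → x ≤ (q : ℝ) ^ (2 - δ) → ∃ a : ℕ, a < q ∧ a.Coprime q ∧
    Real.sqrt (δ / 8 * x * Real.log x / Nat.totient q) ≤ |psi x q a - x / Nat.totient q|

open Classical in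
/-- The number of the `k` with `1 ≤ k ≤ K` for which not all natural numbers `q` at a distance of at most `w` from
`k y` have the property `P`. -/
noncomputable def exceptions (K : ℝ) (y w : ℝ) (P : ℕ → Prop) : ℕ :=
  ((Icc 1 ⌊K⌋₊).filter (fun k : ℕ => ∃ q : ℕ, |(q : ℝ) - k * y| ≤ w ∧ ¬ P q)).card

/-- the moduli without this property -/
def Bad (δ : ℝ) : Set ℕ := {q : ℕ | ¬ LargeErrors δ q}

/-- large variance implies a large error -/
lemma large_of (δ : ℝ) (hδ : 0 < δ) (hδ1 : δ < 1) (q : ℕ) (hq : 1 ≤ q)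
    (h : ∀ x : ℝ, (q : ℝ) ≤ x → x * (Real.log q - 1 / 2 * Real.log x - δ / 8 * Real.log x) ≤
      ∑ a ∈ (range q).filter (fun a => a.Coprime q), (psi x q a - x / Nat.totient q) ^ 2) : LargeErrors δ q := by
  refine ⟨hq, fun x hx1 hx2 => ?_⟩
  have hq1 : (1 : ℝ) ≤ q := by exact_mod_cast hq
  have hx0 : 0 < x := by linarith
  have hφ : 0 < Nat.totient q := Nat.totient_pos.2 (by omega)
  have hφR : (0 : ℝ) < Nat.totient q := by exact_mod_cast hφ
  have hlx : Real.log x ≤ (2 - δ) * Real.log q := by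
    have := Real.log_le_log hx0 hx2
    rwa [Real.log_rpow (by linarith)] at this
  have hlx0 : 0 ≤ Real.log x := Real.log_nonneg (by linarith)
  have hlq0 : 0 ≤ Real.log q := Real.log_nonneg hq1
  have h1 : δ / 8 * x * Real.log x ≤
      ∑ a ∈ (range q).filter (fun a => a.Coprime q), (psi x q a - x / Nat.totient q) ^ 2 := by
    refine le_trans ?_ (h x hx1)
    have h2 : (1 / 2 + δ / 4) * Real.log x ≤ Real.log q := by
      calc (1 / 2 + δ / 4) * Real.log x ≤ (1 / 2 + δ / 4) * ((2 - δ) * Real.log q) := by gcongr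
        _ = (1 - δ ^ 2 / 4) * Real.log q := by ring
        _ ≤ 1 * Real.log q := by
          apply mul_le_mul_of_nonneg_right _ hlq0
          nlinarith
        _ = _ := one_mul _
    nlinarith
  have hcard : (((range q).filter (fun a => a.Coprime q)).card : ℝ) = Nat.totient q := by
    rw [Nat.totient_eq_card_coprime]
    congr 2
    apply filter_congr
    intro a _
    exact Nat.coprime_comm
  by_contra hcon
  push Not at hcon
  have hV0 : 0 ≤ δ / 8 * x * Real.log x / Nat.totient q := by positivity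
  have hne : ((range q).filter (fun a => a.Coprime q)).Nonempty := by
    rw [← card_pos]
    have : (0 : ℝ) < (((range q).filter (fun a => a.Coprime q)).card : ℝ) := by rw [hcard]; exact hφR
    exact_mod_cast this
  have h3 : ∑ a ∈ (range q).filter (fun a => a.Coprime q), (psi x q a - x / Nat.totient q) ^ 2 <
      ∑ a ∈ (range q).filter (fun a => a.Coprime q), δ / 8 * x * Real.log x / Nat.totient q := by
    apply sum_lt_sum_of_nonempty hne
    intro a ha
    rw [mem_filter, mem_range] at ha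
    have h4 := hcon a ha.1 ha.2
    have h5 : |psi x q a - x / Nat.totient q| ^ 2 < Real.sqrt (δ / 8 * x * Real.log x / Nat.totient q) ^ 2 :=
      pow_lt_pow_left₀ h4 (abs_nonneg _) two_ne_zero
    rwa [sq_abs, Real.sq_sqrt hV0] at h5
  rw [sum_const, nsmul_eq_mul, hcard, mul_div_cancel₀ _ hφR.ne'] at h3
  linarith

open Classical in
lemma count (δ : ℝ) (hδ : 0 < δ) (hδ1 : δ < 1) : ∃ η : ℝ, 0 < η ∧ η ≤ 1 ∧ ∃ C : ℝ, ∀ X : ℕ,
    (((Ioc 0 X).filter (fun q => q ∈ Bad δ)).card : ℝ) ≤ C * (X : ℝ) ^ (1 - η) := by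
  obtain ⟨κ, K₀, hκ, hK⟩ := H426AM.main (δ / 8) (by positivity)
  obtain ⟨η, hη, C, hC⟩ := Pool.Agent.Y854.GM.cum_pow (Bad δ) hκ ⌈K₀⌉₊ (by
    intro K hK0
    refine le_trans ?_ (hK K (Nat.ceil_le.1 hK0))
    have hsub : (Ioc K (2 * K)).filter (fun q => q ∈ Bad δ) ⊆
        (Ioc K (2 * K)).filter (fun q : ℕ => ∃ x : ℝ, (q : ℝ) ≤ x ∧
          ∑ a ∈ (range q).filter (fun a => a.Coprime q), (psi x q a - x / Nat.totient q) ^ 2 <
            x * (Real.log q - 1 / 2 * Real.log x - δ / 8 * Real.log x)) := by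
      intro q hq
      rw [mem_filter] at hq ⊢
      refine ⟨hq.1, ?_⟩
      have hq1 := (mem_Ioc.1 hq.1).1
      by_contra hcon
      push Not at hcon
      exact hq.2 (large_of δ hδ hδ1 q (by omega) hcon)
    exact_mod_cast card_le_card hsub)
  refine ⟨min η 1, lt_min hη one_pos, min_le_right _ _, |C|, fun X => ?_⟩
  rcases Nat.eq_zero_or_pos X with rfl | hX
  · simp only [Ioc_self, filter_empty, card_empty, Nat.cast_zero]
    positivity
  · refine (hC X).trans ?_
    have hXp : (1 : ℝ) ≤ X := by exact_mod_cast hX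
    calc C * (X : ℝ) ^ (1 - η) ≤ |C| * (X : ℝ) ^ (1 - η) :=
          mul_le_mul_of_nonneg_right (le_abs_self C) (by positivity)
      _ ≤ |C| * (X : ℝ) ^ (1 - min η 1) := by
          apply mul_le_mul_of_nonneg_left _ (abs_nonneg _)
          exact Real.rpow_le_rpow_of_exponent_le hXp (by have := min_le_left η 1; linarith)

/-- * Let `0 < θ < 1` and `0 < δ < 1`. There is `c > 0` such that for all large `N` there is a set `E` of real numbers
  of measure at most `N ^ (1 - θ - c)` with the following property. Let `y` be a real number with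
  `N ^ (1 - θ) ≤ y ≤ 2 N ^ (1 - θ)` which does not belong to `E`. For all `k ≤ N ^ θ`, with at most `N ^ (θ - c)`
  exceptions, and ALL natural numbers `q` with `|q - k y| ≤ N ^ c` and ALL real `x` with `q ≤ x ≤ q ^ (2 - δ)` there
  is a reduced residue class `a` modulo `q` with `|ψ(x, q, a) - x/φ(q)| ≥ √((δ/8) x log x / φ(q))`.
* Let `0 < δ < 1`. There is `c > 0` such that for every sequence `b` of natural numbers with `b k ≥ k ^ (1 / c)` for
  all large `k` and for almost every real number `α > 0`: for all large `k`, ALL natural numbers `q` with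
  `|q - α b k| ≤ (b k) ^ c` and ALL real `x` with `q ≤ x ≤ q ^ (2 - δ)` there is such a class. -/
theorem result :
    (∀ θ δ : ℝ, 0 < θ → θ < 1 → 0 < δ → δ < 1 → ∃ c : ℝ, 0 < c ∧ ∃ N₀ : ℕ, ∀ N : ℕ, N₀ ≤ N →
      ∃ E : Set ℝ, MeasurableSet E ∧ volume E ≤ ENNReal.ofReal ((N : ℝ) ^ (1 - θ - c)) ∧
        ∀ y : ℝ, (N : ℝ) ^ (1 - θ) ≤ y → y ≤ 2 * (N : ℝ) ^ (1 - θ) → y ∉ E →
          (exceptions ((N : ℝ) ^ θ) y ((N : ℝ) ^ c) (LargeErrors δ) : ℝ) ≤ (N : ℝ) ^ (θ - c)) ∧
    (∀ δ : ℝ, 0 < δ → δ < 1 → ∃ c : ℝ, 0 < c ∧ ∀ b : ℕ → ℕ, (∀ᶠ k : ℕ in atTop, (k : ℝ) ^ (1 / c) ≤ b k) →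
      ∀ᵐ α : ℝ, 0 < α → ∀ᶠ k : ℕ in atTop,
        ∀ q : ℕ, |(q : ℝ) - α * b k| ≤ (b k : ℝ) ^ c → LargeErrors δ q) := by
  classical
  constructor
  · intro θ δ hθ hθ1 hδ hδ1
    obtain ⟨η, hη, hη1, C, hC⟩ := count δ hδ hδ1
    obtain ⟨c, hc, h⟩ := Pool.Agent.Q319.DR.mult_fewP θ hθ hθ1 η hη
    exact ⟨c, hc, h C (Bad δ) hC⟩
  · intro δ hδ hδ1
    obtain ⟨η, hη, hη1, C, hC⟩ := count δ hδ hδ1
    refine ⟨η / 4, by positivity, fun b hb => ?_⟩
    have h := Pool.Agent.Q319.DR.lac_pow (Bad δ) η C hη1 hC (η / 4) 3 (by positivity) (by linarith)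
      (by norm_num) b (by
        have e : (3 : ℝ) / (η - η / 4) = 1 / (η / 4) := by
          field_simp
          norm_num
        rw [e]
        exact hb)
    filter_upwards [h] with α hα hα0
    filter_upwards [hα hα0] with k hk q hq
    exact not_not.1 (hk q hq)

end Pool.Agent.Results.MP_848d44_nt.LargeErrorsAtRealMultiples
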