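import Pool.Agent.Q25.GReg5

/-!
# Narrow progressions in ARBITRARY sets of primes `p ≡ a mod q`, uniformly in all moduli `q ≤ x ^ (1 - θ)`

For all large `x`, ALL `q`, all `a` prime to `q`, all intervals `(u, u + H]` with `q x ^ θ ≤ H ≤ x` and EVERY set `A` of
integers `n ≡ a mod q` without prime factor `≤ x ^ (1/r)` (for example any set of primes `p ≡ a mod q` larger than
`x ^ (1/r)`): all elements of `A` in the interval, with at most `ε H / (φ(q) log x)` exceptions, are terms of `l`-term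
progressions contained in the set and in the interval whose difference is `q d` with `1 ≤ d ≤ (log x) ^ B`.
-/

set_option autoImplicit false

namespace Pool.Agent.Results.MP_848d44_nt.NarrowProgressions

open Finset

/-- `n` has no prime factor `≤ x ^ (1 / r)` -/
def Rough (r x n : ℕ) : Prop := ∀ p : ℕ, p.Prime → (p : ℝ) ≤ (x : ℝ) ^ (1 / (r : ℝ)) → ¬ p ∣ n

/-- `n` is a term of an `l`-term arithmetic progression contained in `A ∩ (u, v]`, with difference `q d`, `1 ≤ d ≤ D` -/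
def OnProgression (A : Set ℕ) (l q : ℕ) (D : ℝ) (u v n : ℕ) : Prop :=
  ∃ m d : ℕ, 1 ≤ d ∧ (d : ℝ) ≤ D ∧ (∀ i < l, m + i * (q * d) ∈ A ∧ u < m + i * (q * d) ∧ m + i * (q * d) ≤ v) ∧
    ∃ i < l, n = m + i * (q * d)

/-- all elements of `A` in `(u, v]` with at most `t` exceptions are terms of such progressions -/
def NearlyAll (A : Set ℕ) (l q : ℕ) (D : ℝ) (u v : ℕ) (t : ℝ) : Prop :=
  ({n : ℕ | u < n ∧ n ≤ v ∧ n ∈ A ∧ ¬ OnProgression A l q D u v n}.ncard : ℝ) ≤ t

/-- Let `l, r ≥ 1` and `θ, ε > 0`. There are `B`, `x₀` such that for all `x ≥ x₀`, ALL moduli `q ≥ 1`, all `a` prime to `q`,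
all intervals `(u, u + H]` with `q x ^ θ ≤ H ≤ x` and EVERY set `A` of integers `n ≡ a mod q` without prime factor
`≤ x ^ (1/r)`, all elements of `A` in `(u, u + H]` with at most `ε H / (φ(q) log x)` exceptions are terms of `l`-term
progressions in `A ∩ (u, u + H]` with a difference `q d`, `1 ≤ d ≤ (log x) ^ B`. -/
theorem result (l r : ℕ) (hl : 1 ≤ l) (hr : 1 ≤ r) (θ ε : ℝ) (hθ : 0 < θ) (hε : 0 < ε) :
    ∃ B x₀ : ℕ, ∀ x : ℕ, x₀ ≤ x → ∀ q a : ℕ, 1 ≤ q → a.Coprime q → ∀ u H : ℕ, q * (x : ℝ) ^ θ ≤ H → H ≤ x →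
      ∀ A : Set ℕ, (∀ n ∈ A, n ≡ a [MOD q] ∧ Rough r x n) →
        NearlyAll A l q (Real.log x ^ B) u (u + H) (ε * (H / (q.totient * Real.log x))) := by
  classical
  obtain ⟨B, x₀, h⟩ := Pool.Agent.Q25.GReg.narrowAP hl r hr hθ hε
  refine ⟨B, x₀, fun x hx q a hq hc u H hH hHx A hA => ?_⟩
  have h1 := h x hx q a hq hc u H hH hHx A hA
  unfold NearlyAll
  refine le_trans (le_of_eq ?_) h1
  rw [← Set.ncard_coe_finset]
  congr 2
  ext n
  unfold Pool.Agent.Q25.GReg.Lone OnProgression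
  rw [mem_coe, mem_filter, mem_Ioc]
  simp only [Set.mem_ofPred_eq]
  tauto

end Pool.Agent.Results.MP_848d44_nt.NarrowProgressions
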